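import Pool.Agent.Helper855.AffineCert
import Pool.Agent.Helper855.AffineSanity

/-!
Weyl modules of the affine Kac-Moody algebra of type `A_1^{(1)}` in characteristic
`p > 2ℓ² + ℓ - 3` need not be irreducible: at level `ℓ = 3` the Weyl module of highest weight
`3 ω_1` is reducible in characteristic `23 > 18`. Its weight space of weight
`3 ω_1 - 4 α_0 - 5 α_1 = (2 ω_0 + ω_1) - 4 δ` has dimension `18`, and the contravariant form has rank
`17` on it modulo `23`.
-/

set_option autoImplicit false

namespace Pool.Agent.Results.MP_c6e3af_al.Disproof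

open Pool.Agent.Helper855.Affine

/-- Sanity check: the module `LC lam`, the quotient of the Verma module by the sum of all proper
submodules, is simple. -/
theorem simple_check (lam : Fin 2 → ℕ) : IsSimpleModule UA (LC lam) := lc_simple lam

/-- Sanity check: its highest weight vector is nonzero. -/
theorem vlam_check (lam : Fin 2 → ℕ) : vlam lam ≠ 0 := vlam_ne_zero lam

/-- The Weyl module of level `3` and highest weight `3 ω_1` is reducible over every field of
characteristic `23`. Hence it is not true that all Weyl modules of level `ℓ` are irreducible over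
algebraically closed fields of characteristic `p > 2` with `p > 2ℓ² + ℓ - 3`. -/
theorem result :
    (∀ (F : Type) [Field F] [CharP F 23], ¬ IsIrreducible F (weight 3 3)) ∧
    ¬ (∀ ℓ : ℕ, 0 < ℓ → ∀ (F : Type) [Field F] [IsAlgClosed F] (p : ℕ) [CharP F p],
      2 < p → 2 * ℓ ^ 2 + ℓ - 3 < p → ∀ n : ℕ, n ≤ ℓ → IsIrreducible F (weight ℓ n)) := by
  refine ⟨fun F _ _ => reducible23 F, fun H => ?_⟩
  have : Fact (Nat.Prime 23) := ⟨by norm_num⟩
  have : CharP (AlgebraicClosure (ZMod 23)) 23 := inferInstance
  exact reducible23 (AlgebraicClosure (ZMod 23))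
    (H 3 (by norm_num) (AlgebraicClosure (ZMod 23)) 23 (by norm_num) (by norm_num) 3 le_rfl)

end Pool.Agent.Results.MP_c6e3af_al.Disproof
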